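import Pool.Agent.H37.CNZ.Stmts

/-! Row `PE0` of the board `cnz` of helper37 (MP_b57703). -/

set_option autoImplicit false

namespace Pool.CND

open Finset Matrix

theorem pe0_thm (h1 : S_XGA) (h2 : S_XUN) : S_PE0 := by
  intro p k G _ _ _ _ _ ι hp hι hinj
  have h0 : ι 1 = 0 := by
    have := hι 1 1
    rw [mul_one] at this
    simpa using this
  let φ : (⊥ : Subgroup G) ≃* Multiplicative (Fin 0 → ZMod p) :=
    { toFun := fun _ => 1
      invFun := fun _ => 1
      left_inv := fun a => Subsingleton.elim _ _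
      right_inv := fun a => Subsingleton.elim (α := Fin 0 → ZMod p) _ _
      map_mul' := fun a b => Subsingleton.elim (α := Fin 0 → ZMod p) _ _ }
  let S : G → Matrix (Fin 0) (Fin 0) (ZMod p) := fun _ => 1
  let C : G → Fin 0 → Polynomial k := fun _ => 0
  let F : Fin 0 → Polynomial k := 0
  have hXD : XD (⊥ : Subgroup G) 0 φ S ι := by
    refine ⟨?_, fun g h => Subsingleton.elim _ _, fun a _ => rfl, hι, ?_⟩
    · intro g a
      refine ⟨1, ?_, Subsingleton.elim _ _⟩
      have ha : (a : G) = 1 := Subgroup.mem_bot.1 a.2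
      rw [ha]
      simp
    · intro g
      rw [Subgroup.mem_bot]
      constructor
      · intro hg
        exact hinj (hg.trans h0.symm)
      · rintro rfl
        exact h0
  have hXC : XC (⊥ : Subgroup G) 0 φ S ι C F :=
    ⟨fun a => Subsingleton.elim _ _, fun g h => Subsingleton.elim _ _,
      fun g => Subsingleton.elim _ _⟩
  obtain ⟨L, i1, i2, x, Y, ρ, hx, hY, hρx, hρY, -, hfix, -, -⟩ :=
    h1 p k G ⊥ 0 φ S ι C F hp hXD hXC (fun ℓ hℓ => absurd (Subsingleton.elim _ _) hℓ)
  exact ⟨L, i1, i2, x, ρ, hρx,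
    h2 p k L G ⊥ 0 φ S ι C F x Y ρ hp hXD hXC hx hY hρx hρY hfix⟩

end Pool.CND
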